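import Pool.Agent.Helper6K9.GM.One
import Pool.Agent.Y124.StdC

set_option autoImplicit false

/-!
# Local algebraic independence: values of the Gamma function at meromorphic functions with a pole,
together with arbitrary functions which are algebraically independent over `ℂ(t)`
-/

namespace Pool.Agent.Helper6K9.GH

open Complex Filter Topology Set Pool.Agent.Helper6K9.GM

/-- the functions `Γ(y_i)`, `i < p`, and `h_l`, `l < k` -/
noncomputable def fam {p k : ℕ} (y : Fin p → ℂ → ℂ) (h : Fin k → ℂ → ℂ) (x : Fin (p + k)) (t : ℂ) : ℂ :=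
  Fin.append (fun i => Gamma (y i t)) (fun l => h l t) x

theorem fam_an {p k : ℕ} {y : Fin p → ℂ → ℂ} {h : Fin k → ℂ → ℂ} {t₀ : ℂ}
    (hy0 : ∀ i, AnalyticAt ℂ (y i) t₀ ∧ ∀ m : ℕ, y i t₀ ≠ -m) (hh0 : ∀ l, AnalyticAt ℂ (h l) t₀)
    (x : Fin (p + k)) : AnalyticAt ℂ (fam y h x) t₀ := by
  refine Fin.addCases (fun i => ?_) (fun l => ?_) x
  · have h1 : fam y h (Fin.castAdd k i) = fun t => Gamma (y i t) := by
      funext t
      simp [fam]
    rw [h1]
    have h3 := (analyticAt_gamma_comp (hy0 i).1).inv (inv_ne_zero (Gamma_ne_zero (hy0 i).2))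
    have h4 : (fun t => (Gamma (y i t))⁻¹)⁻¹ = fun t => Gamma (y i t) := by
      funext z
      simp
    rwa [h4] at h3
  · have h1 : fam y h (Fin.natAdd p l) = h l := by
      funext t
      simp [fam]
    rw [h1]
    exact hh0 l

theorem locIndMero {p k : ℕ} {Ω : Set ℂ} (hΩ : IsOpen Ω) (hc : IsPreconnected Ω)
    (y : Fin p → ℂ → ℂ) (hy : ∀ i, MeromorphicOn (y i) Ω)
    (hpole : ∀ i, ∃ x ∈ Ω, meromorphicOrderAt (y i) x < 0)
    (hH : ∀ i j, i ≠ j → ∀ a b : ℚ, ∃ t ∈ Ω, AnalyticAt ℂ (y i) t ∧ AnalyticAt ℂ (y j) t ∧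
      y i t ≠ a * y j t + b)
    (h : Fin k → ℂ → ℂ) (hh : ∀ l, MeromorphicOn (h l) Ω)
    (hind : ∀ P : MvPolynomial (Option (Fin k)) ℂ, P ≠ 0 → ∃ t ∈ Ω, (∀ l, AnalyticAt ℂ (h l) t) ∧
      MvPolynomial.eval (fun o => o.elim t fun l => h l t) P ≠ 0)
    (t₀ : ℂ) (ht₀ : t₀ ∈ Ω) (hy0 : ∀ i, AnalyticAt ℂ (y i) t₀ ∧ ∀ m : ℕ, y i t₀ ≠ -m)
    (hh0 : ∀ l, AnalyticAt ℂ (h l) t₀) :
    Pool.Agent.Y124.LocInd (fam y h) t₀ := by
  classical
  intro P hP
  by_contra hP0
  obtain ⟨e₀, he₀⟩ := MvPolynomial.ne_zero_iff.1 hP0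
  have he₀s : e₀ ∈ P.support := MvPolynomial.mem_support_iff.2 he₀
  have hΩn : Ω.Nonempty := ⟨t₀, ht₀⟩
  -- the good set
  let u : Fin p ⊕ Fin k → ℂ → ℂ := Sum.elim y h
  have hu : ∀ a, ∀ x ∈ Ω, QuotAt (u a) x := by
    rintro (i | l) x hx
    · exact quot_of_mero (hy i x hx)
    · exact quot_of_mero (hh l x hx)
  obtain ⟨hGo, hGp, hthin, hGd⟩ := good_set hΩ ⟨hΩn, hc⟩ u hu
  set G : Set ℂ := {t | t ∈ Ω ∧ ∀ a, AnalyticAt ℂ (u a) t} with hG
  have hGy : ∀ i, AnalyticOnNhd ℂ (y i) G := fun i t ht => ht.2 (Sum.inl i)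
  have hGh : ∀ l, AnalyticOnNhd ℂ (h l) G := fun l t ht => ht.2 (Sum.inr l)
  have ht₀G : t₀ ∈ G := ⟨ht₀, by
    rintro (i | l)
    · exact (hy0 i).1
    · exact hh0 l⟩
  have hpt : ∀ t ∈ Ω, ∀ S : Set ℂ, S ∈ 𝓝 t → ∃ s ∈ G, s ∈ S := by
    intro t ht S hS
    obtain ⟨s, hs1, hs2⟩ := mem_closure_iff_nhds.1 (hGd ht) S hS
    exact ⟨s, hs2, hs1⟩
  obtain ⟨M, hM⟩ : ∃ M : ℕ, ∀ e ∈ P.support, ∀ i, e (some i) ≤ M := by
    refine ⟨P.support.sup (fun e => ∑ o, e o), fun e he i => ?_⟩
    have h1 : e (some i) ≤ ∑ o, e o :=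
      Finset.single_le_sum (f := fun o => e o) (fun _ _ => Nat.zero_le _) (Finset.mem_univ _)
    exact h1.trans (Finset.le_sup (f := fun e : Option (Fin (p + k)) →₀ ℕ => ∑ o, e o) he)
  let rB : (Option (Fin (p + k)) →₀ ℕ) → (Fin p → ℕ) := fun e i => M - e (some (Fin.castAdd k i))
  let rA : (Option (Fin (p + k)) →₀ ℕ) → (Option (Fin k) →₀ ℕ) := fun e =>
    Finsupp.equivFunOnFinite.symm fun o => o.elim (e none) fun l => e (some (Fin.natAdd p l))
  let C : (Fin p → ℕ) → ℂ → ℂ := fun κ t => ∑ e ∈ P.support.filter (fun e => rB e = κ),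
    P.coeff e * t ^ e none * ∏ l, h l t ^ e (some (Fin.natAdd p l))
  have hCG : ∀ κ, AnalyticOnNhd ℂ (C κ) G := by
    intro κ t ht
    apply Finset.analyticAt_fun_sum
    intro e _
    refine AnalyticAt.fun_mul (analyticAt_const.fun_mul (analyticAt_id.fun_pow _)) ?_
    apply Finset.analyticAt_fun_prod
    intro l _
    exact (hGh l t ht).fun_pow _
  have hCq : ∀ κ, ∀ x ∈ Ω, QuotAt (C κ) x := by
    intro κ x hx
    apply quot_of_mero
    apply MeromorphicAt.fun_sum
    intro e _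
    refine MeromorphicAt.fun_mul ((MeromorphicAt.const _ _).fun_mul
      ((analyticAt_id.meromorphicAt).fun_pow _)) ?_
    apply MeromorphicAt.fun_prod
    intro l _
    exact (hh l x hx).fun_pow _
  -- the relation on the good set
  have hrel : ∀ t ∈ G, ∑ κ ∈ P.support.image rB, C κ t * ∏ i, (Gamma (y i t))⁻¹ ^ κ i = 0 := by
    set R : ℂ → ℂ := fun t => ∑ κ ∈ P.support.image rB, C κ t * ∏ i, (Gamma (y i t))⁻¹ ^ κ i with hR
    have hRG : AnalyticOnNhd ℂ R G := by
      intro t ht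
      rw [hR]
      apply Finset.analyticAt_fun_sum
      intro κ _
      refine AnalyticAt.fun_mul (hCG κ t ht) ?_
      apply Finset.analyticAt_fun_prod
      intro i _
      exact (analyticAt_gamma_comp (hGy i t ht)).fun_pow _
    have hne : ∀ᶠ t in 𝓝 t₀, ∀ i, (Gamma (y i t))⁻¹ ≠ 0 := by
      rw [Filter.eventually_all]
      intro i
      exact (analyticAt_gamma_comp (hy0 i).1).continuousAt.eventually_ne
        (inv_ne_zero (Gamma_ne_zero (hy0 i).2))
    have hloc : R =ᶠ[𝓝 t₀] 0 := by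
      filter_upwards [hP, hne] with t h1 h2
      rw [MvPolynomial.eval_eq'] at h1
      rw [hR]
      simp only [Pi.zero_apply]
      have h3 : ∀ e ∈ P.support, P.coeff e * t ^ e none * (∏ l, h l t ^ e (some (Fin.natAdd p l))) *
          ∏ i, (Gamma (y i t))⁻¹ ^ rB e i = (∏ i, (Gamma (y i t))⁻¹ ^ M) *
          (P.coeff e * ∏ o, (fun o : Option (Fin (p + k)) => o.elim t fun x => fam y h x t) o ^ e o) := by
        intro e he
        rw [Fintype.prod_option, Fin.prod_univ_add]
        simp only [Option.elim_none, Option.elim_some, fam, Fin.append_left, Fin.append_right]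
        have h4 : ∏ i, (Gamma (y i t))⁻¹ ^ M = (∏ i, (Gamma (y i t))⁻¹ ^ rB e i) *
            ∏ i, (Gamma (y i t))⁻¹ ^ e (some (Fin.castAdd k i)) := by
          rw [← Finset.prod_mul_distrib]
          refine Finset.prod_congr rfl fun i _ => ?_
          rw [← pow_add]
          congr 1
          have := hM e he (Fin.castAdd k i)
          simp only [rB]
          omega
        have h5 : (∏ i, (Gamma (y i t))⁻¹ ^ e (some (Fin.castAdd k i))) *
            ∏ i, Gamma (y i t) ^ e (some (Fin.castAdd k i)) = 1 := by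
          rw [← Finset.prod_mul_distrib]
          refine Finset.prod_eq_one fun i _ => ?_
          rw [← mul_pow, inv_mul_cancel₀ (fun h => h2 i (by rw [h, inv_zero])), one_pow]
        rw [h4]
        linear_combination (-(P.coeff e * t ^ e none * (∏ l, h l t ^ e (some (Fin.natAdd p l))) *
          ∏ i, (Gamma (y i t))⁻¹ ^ rB e i)) * h5
      have h6 : ∑ κ ∈ P.support.image rB, C κ t * ∏ i, (Gamma (y i t))⁻¹ ^ κ i =
          ∑ e ∈ P.support, P.coeff e * t ^ e none * (∏ l, h l t ^ e (some (Fin.natAdd p l))) *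
          ∏ i, (Gamma (y i t))⁻¹ ^ rB e i := by
        rw [← Finset.sum_fiberwise_of_maps_to (s := P.support) (t := P.support.image rB)
          (g := rB) (fun k hk => Finset.mem_image_of_mem _ hk)]
        apply Finset.sum_congr rfl
        intro κ _
        simp only [C]
        rw [Finset.sum_mul]
        apply Finset.sum_congr rfl
        intro e he
        have hk2 : rB e = κ := (Finset.mem_filter.1 he).2
        rw [← hk2]
      rw [h6, Finset.sum_congr rfl h3, ← Finset.mul_sum, h1, mul_zero]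
    exact fun t ht => hRG.eqOn_zero_of_preconnected_of_eventuallyEq_zero hGp ht₀G hloc ht
  have hC0 := glob (Fintype.card (Fin p)) (Fin p) rfl Ω G hGp hthin y
    (P.support.image rB) C (fun i x hx => quot_of_mero (hy i x hx)) (fun κ _ => hCq κ)
    hGy (fun κ _ => hCG κ)
    (fun i => by
      obtain ⟨x, hx, hx'⟩ := hpole i
      exact ⟨x, hx, pole_of_order (hy i x hx) hx'⟩)
    (fun i l hil a b hcon2 => by
      obtain ⟨t, ht, h1, h2, h3⟩ := hH i l hil a b
      have hca : ContinuousAt (fun s => y i s - (a * y l s + b)) t :=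
        h1.continuousAt.sub ((continuousAt_const.mul h2.continuousAt).add continuousAt_const)
      obtain ⟨s, hs1, hs2⟩ := hpt t ht _ (hca.eventually_ne (sub_ne_zero.2 h3))
      exact hs2 (sub_eq_zero.2 (hcon2 s hs1)))
    hrel (rB e₀) (Finset.mem_image_of_mem _ he₀s)
  -- a polynomial
  set S := P.support.filter (fun e => rB e = rB e₀) with hS
  set Q : MvPolynomial (Option (Fin k)) ℂ := ∑ e ∈ S, MvPolynomial.monomial (rA e) (P.coeff e) with hQ
  have hinj : ∀ e ∈ S, rA e = rA e₀ → e = e₀ := by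
    intro e he h0
    obtain ⟨he1, he2⟩ := Finset.mem_filter.1 he
    ext o
    cases o with
    | none => exact DFunLike.congr_fun h0 none
    | some x =>
      refine Fin.addCases (fun i => ?_) (fun l => ?_) x
      · have h1 := hM e he1 (Fin.castAdd k i)
        have h2 := hM e₀ he₀s (Fin.castAdd k i)
        have := congrFun he2 i
        simp only [rB] at this
        omega
      · exact DFunLike.congr_fun h0 (some l)
  have he₀S : e₀ ∈ S := Finset.mem_filter.2 ⟨he₀s, rfl⟩
  have hQc : Q.coeff (rA e₀) = P.coeff e₀ := by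
    rw [hQ, MvPolynomial.coeff_sum, Finset.sum_eq_single e₀]
    · simp
    · intro e he hne
      rw [MvPolynomial.coeff_monomial, if_neg]
      intro h
      exact hne (hinj e he h)
    · intro h
      exact absurd he₀S h
  have hQne : Q ≠ 0 := by
    intro h
    rw [h, MvPolynomial.coeff_zero] at hQc
    exact he₀ hQc.symm
  have hQe : ∀ t, MvPolynomial.eval (fun o : Option (Fin k) => o.elim t fun l => h l t) Q =
      C (rB e₀) t := by
    intro t
    rw [hQ, map_sum]
    apply Finset.sum_congr rfl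
    intro e _
    rw [MvPolynomial.eval_monomial, Finsupp.prod_fintype _ _ (fun _ => pow_zero _),
      Fintype.prod_option]
    simp only [rA, Option.elim_none, Option.elim_some, Finsupp.equivFunOnFinite_symm_apply_apply]
    ring
  obtain ⟨t₁, ht₁, h1, h2⟩ := hind Q hQne
  have hca : ContinuousAt (C (rB e₀)) t₁ := by
    have : AnalyticAt ℂ (C (rB e₀)) t₁ := by
      apply Finset.analyticAt_fun_sum
      intro e _
      refine AnalyticAt.fun_mul (analyticAt_const.fun_mul (analyticAt_id.fun_pow _)) ?_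
      apply Finset.analyticAt_fun_prod
      intro l _
      exact (h1 l).fun_pow _
    exact this.continuousAt
  rw [hQe] at h2
  obtain ⟨s, hs1, hs2⟩ := hpt t₁ ht₁ _ (hca.eventually_ne h2)
  exact hs2 (hC0 s hs1)

end Pool.Agent.Helper6K9.GH
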